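import Pool.Agent.helper37.P2.SpecD

set_option autoImplicit false

/-!
# P2, row MN2
-/

open scoped ContDiff Topology
open MeasureTheory Filter Set Metric MvPolynomial Pool.Agent.helper37.QA

namespace Pool.Agent.P2

/-- multiplication by a complex number, as a real linear map -/
noncomputable def MN2_L (l : ℂ) : (ℂ × ℂ) →ₗ[ℝ] (ℂ × ℂ) :=
  (l • (LinearMap.id : (ℂ × ℂ) →ₗ[ℂ] (ℂ × ℂ))).restrictScalars ℝ

theorem MN2_det (l : ℂ) : LinearMap.det (MN2_L l) = ‖l‖ ^ 4 := by
  rw [MN2_L, LinearMap.det_restrictScalars, LinearMap.det_smul, LinearMap.det_id, mul_one]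
  have h1 : Module.finrank ℂ (ℂ × ℂ) = 2 := by simp
  rw [h1, Algebra.norm_complex_apply, map_pow, Complex.normSq_eq_norm_sq]
  ring

theorem MN2_scale (l : ℂ) (hl : l ≠ 0) (F : ℂ × ℂ → ENNReal) (hF : Measurable F) :
    ∫⁻ q, F q = ENNReal.ofReal (‖l‖ ^ 4) * ∫⁻ p : ℂ × ℂ, F (l * p.1, l * p.2) := by
  have hl0 : 0 < ‖l‖ := norm_pos_iff.2 hl
  have hd : LinearMap.det (MN2_L l) ≠ 0 := by rw [MN2_det]; positivity
  have : (volume : Measure (ℂ × ℂ)).IsAddHaarMeasure := by
    rw [Measure.volume_eq_prod]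
    infer_instance
  have h1 := Measure.map_linearMap_addHaar_eq_smul_addHaar (μ := (volume : Measure (ℂ × ℂ))) hd
  have h2 : ∫⁻ p : ℂ × ℂ, F (l * p.1, l * p.2) = ∫⁻ q, F q ∂(Measure.map (MN2_L l) volume) := by
    rw [lintegral_map hF]
    · rfl
    · exact (MN2_L l).continuous_of_finiteDimensional.measurable
  rw [h2, h1, lintegral_smul_measure, smul_eq_mul, ← mul_assoc, ← ENNReal.ofReal_mul (by positivity), MN2_det]
  have h3 : ‖l‖ ^ 4 * |(‖l‖ ^ 4)⁻¹| = 1 := by
    rw [abs_of_nonneg (by positivity)]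
    field_simp
  rw [h3, ENNReal.ofReal_one, one_mul]

theorem MN2_core (g : ℂ × (ℂ × ℂ) → E3) (hg : MeasurePreserving g volume volume) (ch : ℂ → ℂ → E3)
    (hch : ∀ l x y : ℂ, g (l, (l * x, l * y)) = l • ch x y) (hcc : Continuous (fun p : ℂ × ℂ => ch p.1 p.2))
    (hcb : ∀ x y : ℂ, ‖ch x y‖ ≤ 1 + ‖x‖ + ‖y‖)
    (S : Set (PP 2)) (h : E3 → ENNReal) (hS : IsOpen S) (R : ℝ) (hR : 1 ≤ R)
    (hSR : ∀ x y : ℂ, ‖x‖ ≤ 3 → ch x y ∈ cone S → ‖y‖ ≤ R)
    (hm : Measurable ((cone S).indicator h)) (hh : ∀ (Y : E3) (c : ℂ), c ≠ 0 → h (c • Y) = h Y) :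
    ENNReal.ofReal ((1 / (4 + R) / 2) ^ 4) * volume (ball (((3 / 4 * (1 / (4 + R)) : ℝ) : ℂ)) (1 / (4 + R) / 4)) *
      ∫⁻ p in {p : ℂ × ℂ | ‖p.1‖ ≤ 3 ∧ ch p.1 p.2 ∈ cone S}, h (ch p.1 p.2) ≤
      ∫⁻ Y in closedBall (0 : E3) 1 ∩ cone S, h Y := by
  have hcS : IsOpen (cone S) := cone_open hS
  have hAm : MeasurableSet {p : ℂ × ℂ | ‖p.1‖ ≤ 3 ∧ ch p.1 p.2 ∈ cone S} := by
    apply MeasurableSet.inter
    · exact (isClosed_le (continuous_norm.comp continuous_fst) continuous_const).measurableSet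
    · exact (hcS.preimage hcc).measurableSet
  obtain ⟨r, hr⟩ : ∃ r : ℝ, r = 1 / (4 + R) := ⟨_, rfl⟩
  have hr0 : 0 < r := by rw [hr]; positivity
  have hrR : r * (4 + R) = 1 := by rw [hr]; field_simp
  rw [← hr]
  have hF : Measurable ((closedBall (0 : E3) 1 ∩ cone S).indicator h) := by
    have : (closedBall (0 : E3) 1 ∩ cone S).indicator h = (closedBall (0 : E3) 1).indicator ((cone S).indicator h) := by
      rw [Set.indicator_indicator]
    rw [this]
    exact hm.indicator isClosed_closedBall.measurableSet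
  obtain ⟨F, hFd⟩ : ∃ F, F = (closedBall (0 : E3) 1 ∩ cone S).indicator h := ⟨_, rfl⟩
  rw [← hFd] at hF
  have hms : MeasurableSet (closedBall (0 : E3) 1 ∩ cone S) :=
    isClosed_closedBall.measurableSet.inter hcS.measurableSet
  rw [← lintegral_indicator hms, ← hFd, ← hg.lintegral_comp hF]
  have hFg : Measurable (fun z => F (g z)) := hF.comp hg.measurable
  have hprod : ∫⁻ z : ℂ × (ℂ × ℂ), F (g z) = ∫⁻ l : ℂ, ∫⁻ p : ℂ × ℂ, F (g (l, p)) :=
    lintegral_prod (μ := volume) (ν := volume) (fun z => F (g z)) hFg.aemeasurable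
  rw [hprod]
  rw [← lintegral_indicator hAm]
  obtain ⟨I, hI⟩ : ∃ I, I = ∫⁻ p : ℂ × ℂ, {p : ℂ × ℂ | ‖p.1‖ ≤ 3 ∧ ch p.1 p.2 ∈ cone S}.indicator
    (fun p => h (ch p.1 p.2)) p := ⟨_, rfl⟩
  have key : ∀ l ∈ ball (((3 / 4 * r : ℝ) : ℂ)) (r / 4),
      ENNReal.ofReal ((r / 2) ^ 4) * I ≤ ∫⁻ p, F (g (l, p)) := by
    intro l hl
    rw [mem_ball, dist_eq_norm] at hl
    have hn : ‖((3 / 4 * r : ℝ) : ℂ)‖ = 3 / 4 * r := by
      rw [Complex.norm_real, Real.norm_of_nonneg (by positivity)]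
    have hl1 : r / 2 ≤ ‖l‖ := by
      have := norm_sub_norm_le ((3 / 4 * r : ℝ) : ℂ) l
      rw [hn, norm_sub_rev] at this
      linarith
    have hl2 : ‖l‖ ≤ r := by
      have := norm_sub_norm_le l ((3 / 4 * r : ℝ) : ℂ)
      rw [hn] at this
      linarith
    have hl0 : l ≠ 0 := norm_pos_iff.1 (by linarith)
    have hFl : Measurable (fun p => F (g (l, p))) := hFg.comp measurable_prodMk_left
    rw [MN2_scale l hl0 _ hFl, hI]
    apply mul_le_mul'
    · apply ENNReal.ofReal_le_ofReal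
      exact pow_le_pow_left₀ (by positivity) hl1 4
    · apply lintegral_mono
      intro p
      simp only
      by_cases hp : p ∈ {p : ℂ × ℂ | ‖p.1‖ ≤ 3 ∧ ch p.1 p.2 ∈ cone S}
      · rw [Set.indicator_of_mem hp, hch]
        obtain ⟨hp1, hp2⟩ := hp
        have hmem : l • ch p.1 p.2 ∈ closedBall (0 : E3) 1 ∩ cone S := by
          constructor
          · rw [mem_closedBall, dist_zero_right, norm_smul]
            have h1 := hcb p.1 p.2
            have h2 := hSR p.1 p.2 hp1 hp2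
            have h3 : ‖ch p.1 p.2‖ ≤ 4 + R := by linarith
            calc ‖l‖ * ‖ch p.1 p.2‖ ≤ r * (4 + R) := mul_le_mul hl2 h3 (norm_nonneg _) hr0.le
              _ = 1 := hrR
          · obtain ⟨h0, h1⟩ := hp2
            refine ⟨smul_ne_zero hl0 h0, ?_⟩
            have : toPP ⟨l • ch p.1 p.2, smul_ne_zero hl0 h0⟩ = toPP ⟨ch p.1 p.2, h0⟩ := by
              unfold toPP
              rw [Projectivization.mk_eq_mk_iff']
              exact ⟨l, rfl⟩
            rw [this]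
            exact h1
        rw [hFd, Set.indicator_of_mem hmem, hh _ _ hl0]
      · rw [Set.indicator_of_notMem hp]
        exact zero_le
  rw [← hI]
  calc ENNReal.ofReal ((r / 2) ^ 4) * volume (ball (((3 / 4 * r : ℝ) : ℂ)) (r / 4)) * I
      = ∫⁻ _l in ball (((3 / 4 * r : ℝ) : ℂ)) (r / 4), (ENNReal.ofReal ((r / 2) ^ 4) * I) := by
        rw [setLIntegral_const]
        ring
    _ ≤ ∫⁻ l in ball (((3 / 4 * r : ℝ) : ℂ)) (r / 4), ∫⁻ p, F (g (l, p)) :=
        setLIntegral_mono' measurableSet_ball key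
    _ ≤ ∫⁻ l, ∫⁻ p, F (g (l, p)) := setLIntegral_le_lintegral _ _

theorem MN2_g0 : MeasurePreserving (fun z : ℂ × (ℂ × ℂ) => (![z.1, z.2.1, z.2.2] : E3)) volume volume := by
  have h1 := (volume_preserving_piFinSuccAbove (fun _ : Fin 3 => ℂ) 0).symm
  have h2 := (volume_preserving_finTwoArrow ℂ).symm
  have h3 := (MeasurePreserving.id (volume : Measure ℂ)).prod h2
  have h4 := h1.comp h3
  refine ⟨?_, ?_⟩
  · fun_prop
  · rw [← h4.map_eq]
    congr 1
    funext z i
    fin_cases i <;> rfl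

theorem MN2_g1 : MeasurePreserving (fun z : ℂ × (ℂ × ℂ) => (![z.2.1, z.1, z.2.2] : E3)) volume volume := by
  have h1 := (volume_preserving_piFinSuccAbove (fun _ : Fin 3 => ℂ) 1).symm
  have h2 := (volume_preserving_finTwoArrow ℂ).symm
  have h3 := (MeasurePreserving.id (volume : Measure ℂ)).prod h2
  have h4 := h1.comp h3
  refine ⟨?_, ?_⟩
  · fun_prop
  · rw [← h4.map_eq]
    congr 1
    funext z i
    fin_cases i <;> rfl

theorem MN2 (hCHB : CHB_stmt) : MN2_stmt := by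
  intro d f U hU
  obtain ⟨R, hR1, hR⟩ := hCHB.1 d f U hU
  obtain ⟨κ, hκ⟩ : ∃ κ : ENNReal, κ = ENNReal.ofReal ((1 / (4 + R) / 2) ^ 4) *
    volume (ball (((3 / 4 * (1 / (4 + R)) : ℝ) : ℂ)) (1 / (4 + R) / 4)) := ⟨_, rfl⟩
  have hκ0 : κ ≠ 0 := by
    rw [hκ]
    apply mul_ne_zero
    · have : 0 < (1 / (4 + R) / 2) ^ 4 := by positivity
      simpa using this
    · exact (measure_ball_pos _ _ (by positivity)).ne'
  have hκt : κ ≠ ⊤ := by
    rw [hκ]
    exact ENNReal.mul_ne_top ENNReal.ofReal_ne_top measure_ball_lt_top.ne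
  refine ⟨(κ⁻¹).toReal, ENNReal.toReal_pos (ENNReal.inv_ne_zero.2 hκt) (ENNReal.inv_ne_top.2 hκ0), ?_⟩
  intro S h ι hS hSU hm hh
  rw [ENNReal.ofReal_toReal (ENNReal.inv_ne_top.2 hκ0)]
  have hconeU : ∀ Y, Y ∈ cone S → Y ∈ cone U := fun Y ⟨h0, h1⟩ => ⟨h0, hSU h1⟩
  have hcont0 : Continuous (fun p : ℂ × ℂ => (![1, p.1, p.2] : E3)) := by fun_prop
  have hcont1 : Continuous (fun p : ℂ × ℂ => (![p.1, 1, p.2] : E3)) := by fun_prop
  have key : κ * ∫⁻ p in {p : ℂ × ℂ | ‖p.1‖ ≤ 3 ∧ cht ι p.1 p.2 ∈ cone S}, h (cht ι p.1 p.2) ≤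
      ∫⁻ Y in closedBall (0 : E3) 1 ∩ cone S, h Y := by
    rw [hκ]
    have hι : ι = 0 ∨ ι = 1 := by omega
    rcases hι with rfl | rfl
    · have hc : ∀ x y : ℂ, cht 0 x y = ![1, x, y] := fun x y => by simp [cht]
      have := MN2_core _ MN2_g0 (fun x y => ![1, x, y])
        (by
          intro l x y
          funext i
          fin_cases i <;> simp) hcont0
        (by
          intro x y
          rw [pi_norm_le_iff_of_nonneg (by positivity)]
          intro i
          have hx := norm_nonneg x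
          have hy := norm_nonneg y
          fin_cases i
          · simp; linarith
          · simp; linarith
          · simp; linarith) S h hS R hR1
        (fun x y hx hxy => hR 0 x y hx (by rw [hc]; exact hconeU _ hxy)) hm hh
      simpa only [hc] using this
    · have hc : ∀ x y : ℂ, cht 1 x y = ![x, 1, y] := fun x y => by simp [cht]
      have := MN2_core _ MN2_g1 (fun x y => ![x, 1, y])
        (by
          intro l x y
          funext i
          fin_cases i <;> simp) hcont1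
        (by
          intro x y
          rw [pi_norm_le_iff_of_nonneg (by positivity)]
          intro i
          have hx := norm_nonneg x
          have hy := norm_nonneg y
          fin_cases i
          · simp; linarith
          · simp; linarith
          · simp; linarith) S h hS R hR1
        (fun x y hx hxy => hR 1 x y hx (by rw [hc]; exact hconeU _ hxy)) hm hh
      simpa only [hc] using this
  have h5 := mul_le_mul' (le_refl κ⁻¹) key
  rw [← mul_assoc, ENNReal.inv_mul_cancel hκ0 hκt, one_mul] at h5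
  exact h5

end Pool.Agent.P2
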