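import Pool.Agent.helper56.P2.SpecW

set_option autoImplicit false
set_option linter.unusedVariables false

/-!
# Row p2:WPB (MP_063734_an): change of variables
-/

open scoped ContDiff Topology ComplexConjugate ENNReal
open MeasureTheory Filter Set Metric MvPolynomial Pool.Agent.helper37.QA

namespace Pool.Agent.P2W

open Pool.Agent.P2

theorem WPB_RG (ξ0 : ℂ) (ρ s : ℝ) : RG ξ0 ρ s = ball ξ0 (2 * ρ) ×ˢ ball (0 : ℂ) s := by
  ext q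
  simp [RG, Metric.mem_ball, dist_eq_norm]

theorem WPB_meas (ξ0 : ℂ) (ρ s : ℝ) : MeasurableSet (RG ξ0 ρ s) := by
  rw [WPB_RG]
  exact measurableSet_ball.prod measurableSet_ball

theorem WPB_TBmeas (a r : ℝ) : MeasurableSet (P2U.TB a r) := by
  have h : P2U.TB a r = ball (0 : ℂ) a ×ˢ ball (0 : ℂ) r := by
    ext q
    simp [P2U.TB]
  rw [h]
  exact measurableSet_ball.prod measurableSet_ball

theorem WPB_mem (ξ0 : ℂ) (ρ κ h : ℝ) (hρ : 0 < ρ) (hκ : 0 < κ) (p : ℂ × ℂ) :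
    p ∈ P2U.TB 2 h ↔ Sc ξ0 ρ κ p ∈ RG ξ0 ρ (κ * ρ * h) := by
  have h1 : ‖(Sc ξ0 ρ κ p).1 - ξ0‖ = ρ * ‖p.1‖ := by
    simp [Sc, abs_of_pos hρ]
  have h2 : ‖(Sc ξ0 ρ κ p).2‖ = κ * ρ * ‖p.2‖ := by
    simp [Sc, abs_of_pos hρ, abs_of_pos hκ, mul_assoc]
  have e1 : ρ * ‖p.1‖ < 2 * ρ ↔ ‖p.1‖ < 2 := by
    rw [mul_comm 2 ρ]
    exact mul_lt_mul_iff_right₀ hρ
  have e2 : κ * ρ * ‖p.2‖ < κ * ρ * h ↔ ‖p.2‖ < h := mul_lt_mul_iff_right₀ (mul_pos hκ hρ)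
  show (‖p.1‖ < 2 ∧ ‖p.2‖ < h) ↔ (‖(Sc ξ0 ρ κ p).1 - ξ0‖ < 2 * ρ ∧ ‖(Sc ξ0 ρ κ p).2‖ < κ * ρ * h)
  rw [h1, h2, e1, e2]

theorem WPB_om (P Q : ℂ × ℂ → ℂ) (p : ℂ × ℂ) : 0 ≤ om P Q p := by
  unfold om
  positivity

theorem WPB (hWHO : WHO_stmt) (hWSC : WSC_stmt) (hWCR : WCR_stmt) : WPB_stmt := by
  intro d f U hd τ κ C0 α hτ hκ hκ1 hW ι c γ n ξ0 ρ h hT hξ0 hρ hρ1 hκρ hh hh1
  obtain ⟨hAn, -⟩ := hWHO d f ι c κ γ n hT.hd
  have hAP : AnalyticOnNhd ℂ (gP f n ι c κ γ) {p : ℂ × ℂ | ‖p.1‖ < 1} := fun p hp =>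
    ((ContinuousLinearMap.proj (R := ℂ) (φ := fun _ : Fin 3 => ℂ) 0).analyticAt _).comp (hAn p hp)
  have hAQ : AnalyticOnNhd ℂ (gQ f n ι c κ γ) {p : ℂ × ℂ | ‖p.1‖ < 1} := fun p hp =>
    ((ContinuousLinearMap.proj (R := ℂ) (φ := fun _ : Fin 3 => ℂ) 1).analyticAt _).comp (hAn p hp)
  set P : ℂ × ℂ → ℂ := gP f n ι c κ γ with hP
  set Q : ℂ × ℂ → ℂ := gQ f n ι c κ γ with hQ
  have hdn : (0 : ℝ) < (d : ℝ) ^ n := by
    have : (0 : ℝ) < d := by exact_mod_cast (by omega : 0 < d)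
    positivity
  have hκρ0 : 0 < κ * ρ := mul_pos hκ hρ
  have hSc : ∀ p : ℂ × ℂ, Sc ξ0 ρ κ p = (ξ0 + ((ρ : ℝ) : ℂ) * p.1, ((κ * ρ : ℝ) : ℂ) * p.2) := by
    intro p
    simp [Sc, mul_assoc]
  have hsP : sP f n ι c κ γ ξ0 ρ = fun p => P (ξ0 + ((ρ : ℝ) : ℂ) * p.1, ((κ * ρ : ℝ) : ℂ) * p.2) := by
    funext p
    rw [← hSc]
    rfl
  have hsQ : sQ f n ι c κ γ ξ0 ρ = fun p => Q (ξ0 + ((ρ : ℝ) : ℂ) * p.1, ((κ * ρ : ℝ) : ℂ) * p.2) := by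
    funext p
    rw [← hSc]
    rfl
  constructor
  · intro g
    have hnorm : ∀ p ∈ P2U.TB 2 h, ‖(Sc ξ0 ρ κ p).1‖ < 1 := by
      intro p hp
      have hp1 : ‖p.1‖ < 2 := hp.1
      have h1 : ‖(ρ : ℂ) * p.1‖ = ρ * ‖p.1‖ := by simp [abs_of_pos hρ]
      calc ‖(Sc ξ0 ρ κ p).1‖ = ‖ξ0 + (ρ : ℂ) * p.1‖ := rfl
        _ ≤ ‖ξ0‖ + ‖(ρ : ℂ) * p.1‖ := norm_add_le _ _
        _ ≤ 1 / 16 + ρ * ‖p.1‖ := by rw [h1]; linarith
        _ < 1 := by nlinarith [norm_nonneg p.1]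
    set F : ℂ × ℂ → ℝ≥0∞ := fun q =>
      ENNReal.ofReal (ρ ^ 2 * Complex.normSq (w1 P Q q) * om P Q q) * g q with hF
    set G : ℂ × ℂ → ℝ≥0∞ := (RG ξ0 ρ (κ * ρ * h)).indicator F with hG
    have hpt : ∀ p : ℂ × ℂ, (P2U.TB 2 h).indicator (fun p => ENNReal.ofReal
        (‖P2U.cx (sP f n ι c κ γ ξ0 ρ) (sQ f n ι c κ γ ξ0 ρ) p‖ ^ 2 *
          P2U.om (sP f n ι c κ γ ξ0 ρ) (sQ f n ι c κ γ ξ0 ρ) p) * g (Sc ξ0 ρ κ p)) p =
        G (ξ0 + ((ρ : ℝ) : ℂ) * p.1, ((κ * ρ : ℝ) : ℂ) * p.2) := by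
      intro p
      by_cases hp : p ∈ P2U.TB 2 h
      · have hp' := (WPB_mem ξ0 ρ κ h hρ hκ p).1 hp
        rw [← hSc, hG, Set.indicator_of_mem hp, Set.indicator_of_mem hp', hF]
        have hn := hnorm p hp
        have hs := hWSC P Q ξ0 ρ (κ * ρ) p hρ hκρ0
          (by rw [← hSc]; exact hAP _ hn) (by rw [← hSc]; exact hAQ _ hn)
        obtain ⟨e1, -, e2, -⟩ := hs
        rw [hsP, hsQ, e1, e2, ← hSc]
        congr 2
        rw [norm_mul, mul_pow, Complex.normSq_eq_norm_sq]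
        simp
      · have hp' : Sc ξ0 ρ κ p ∉ RG ξ0 ρ (κ * ρ * h) := fun hc =>
          hp ((WPB_mem ξ0 ρ κ h hρ hκ p).2 hc)
        rw [← hSc, hG, Set.indicator_of_notMem hp, Set.indicator_of_notMem hp']
    rw [← lintegral_indicator (WPB_TBmeas 2 h)]
    rw [lintegral_congr hpt, hWCR G ξ0 ρ (κ * ρ) hρ hκρ0, hG, lintegral_indicator (WPB_meas _ _ _)]
    have hFg : ∀ q, F q = ENNReal.ofReal (2 * ρ ^ 2 * (d : ℝ) ^ n) *
        (ENNReal.ofReal (gt f n ι c κ γ q) * g q) := by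
      intro q
      rw [← mul_assoc, ← ENNReal.ofReal_mul (by positivity)]
      show ENNReal.ofReal (ρ ^ 2 * Complex.normSq (w1 P Q q) * om P Q q) * g q = _
      congr 2
      show ρ ^ 2 * Complex.normSq (w1 P Q q) * om P Q q =
        2 * ρ ^ 2 * (d : ℝ) ^ n * ((1 / 2) * Complex.normSq (w1 P Q q) * om P Q q / (d : ℝ) ^ n)
      field_simp
    rw [lintegral_congr hFg, lintegral_const_mul' _ _ ENNReal.ofReal_ne_top, ← mul_assoc,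
      ← ENNReal.ofReal_mul (by positivity)]
    congr 2
    field_simp
  · intro g hg
    have hvol : (volume : Measure (ℂ × ℂ)) = (volume : Measure ℂ).prod volume :=
      Measure.volume_eq_prod ℂ ℂ
    have hsub : RG ξ0 ρ (κ * ρ * h) ⊆ {p : ℂ × ℂ | ‖p.1‖ < 1} ∩ P2U.TB 1 τ := by
      intro q hq
      have h1 : ‖q.1 - ξ0‖ < 2 * ρ := hq.1
      have h2 : ‖q.2‖ < κ * ρ * h := hq.2
      have h3 : ‖q.1‖ < 1 := by
        calc ‖q.1‖ = ‖(q.1 - ξ0) + ξ0‖ := by rw [sub_add_cancel]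
          _ ≤ ‖q.1 - ξ0‖ + ‖ξ0‖ := norm_add_le _ _
          _ < 1 := by linarith
      have h4 : κ * ρ * h ≤ κ * ρ := by nlinarith
      exact ⟨h3, h3, by linarith⟩
    have hgt : ContinuousOn (gt f n ι c κ γ) (RG ξ0 ρ (κ * ρ * h)) := by
      have hPc : ContinuousOn P (RG ξ0 ρ (κ * ρ * h)) :=
        hAP.continuousOn.mono fun q hq => (hsub hq).1
      have hQc : ContinuousOn Q (RG ξ0 ρ (κ * ρ * h)) :=
        hAQ.continuousOn.mono fun q hq => (hsub hq).1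
      have hP' : ContinuousOn (fun q => fderiv ℂ P q (1, 0)) (RG ξ0 ρ (κ * ρ * h)) :=
        (hAP.fderiv.continuousOn.mono fun q hq => (hsub hq).1).clm_apply continuousOn_const
      have hQ' : ContinuousOn (fun q => fderiv ℂ Q q (1, 0)) (RG ξ0 ρ (κ * ρ * h)) :=
        (hAQ.fderiv.continuousOn.mono fun q hq => (hsub hq).1).clm_apply continuousOn_const
      have hw : ContinuousOn (w1 P Q) (RG ξ0 ρ (κ * ρ * h)) :=
        (hQc.mul hP').sub (hPc.mul hQ')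
      have hne : ∀ q ∈ RG ξ0 ρ (κ * ρ * h), (Complex.normSq (P q) + Complex.normSq (Q q)) ^ 2 ≠ 0 := by
        intro q hq
        have h5 := (hW.nz ι c γ hT n q (hsub hq).2).1
        exact pow_ne_zero 2 (ne_of_gt h5)
      have hom : ContinuousOn (om P Q) (RG ξ0 ρ (κ * ρ * h)) := by
        apply ContinuousOn.inv₀ _ hne
        exact ((Complex.continuous_normSq.comp_continuousOn hPc).add
          (Complex.continuous_normSq.comp_continuousOn hQc)).pow 2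
      exact ((continuousOn_const.mul (Complex.continuous_normSq.comp_continuousOn hw)).mul
        hom).div_const _
    have hae : AEMeasurable (fun q => ENNReal.ofReal (gt f n ι c κ γ q) * g q)
        (volume.restrict (RG ξ0 ρ (κ * ρ * h))) :=
      ((hgt.aemeasurable (WPB_meas _ _ _)).ennreal_ofReal).mul hg.aemeasurable
    rw [WPB_RG, hvol, ← Measure.prod_restrict] at hae
    rw [WPB_RG, hvol, ← Measure.prod_restrict, lintegral_prod_symm _ hae]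

end Pool.Agent.P2W
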